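import Pool.Agent.BraidLen.Real

set_option autoImplicit false

/-!
# Translation lengths of multitwists of the braid group in CAT(0) spaces (MP_8c7f82_al)

All definitions used in the statement are in `Pool.Agent.BraidLen.Defs`.
-/

namespace Pool.Agent.Results.MP_8c7f82_al.MultitwistLengths

open Pool.Agent.BraidLen

universe u

/-- Let `n ≥ 3`. For every isometric action of the braid group on `n + 1` strands on a CAT(0) space
(no properness, cocompactness or semisimplicity) the translation lengths of all the multitwists are
given by one quadratic form `Q n A B C` in the pairwise numbers of full turns, and `(A, B, C)` is in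
the cone of the positive semidefinite forms. Conversely every `(A, B, C)` in the cone is realised by
an isometric action on a Euclidean space of dimension `(n + 1) ^ 2`. -/
theorem result (n : ℕ) (hn : 3 ≤ n) :
    (∀ (X : Type u) [MetricSpace X] [MulAction (Braid n) X],
      (∀ g : Braid n, Isometry (fun x : X => g • x)) → CN X →
        ∃ A B C : ℝ, Cone n A B C ∧ LenForm n X A B C) ∧
    ∀ A B C : ℝ, Cone n A B C →
      ∃ _ : MulAction (Braid n) (EuclideanSpace ℝ (Fin (n + 1) × Fin (n + 1))),
        (∀ g : Braid n,
          Isometry (fun x : EuclideanSpace ℝ (Fin (n + 1) × Fin (n + 1)) => g • x)) ∧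
        CN (EuclideanSpace ℝ (Fin (n + 1) × Fin (n + 1))) ∧
        LenForm n (EuclideanSpace ℝ (Fin (n + 1) × Fin (n + 1))) A B C := by
  refine ⟨fun X _ _ hG hX => rigidity hn X hG hX, fun A B C h => ?_⟩
  obtain ⟨_, h1, h2⟩ := realisation hn h
  exact ⟨_, h1, cn_euclid n, h2⟩

end Pool.Agent.Results.MP_8c7f82_al.MultitwistLengths
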